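import Pool.Agent.H2.O1.K7

set_option autoImplicit false

/-!
# Case (O1), the end: K7 gives the inverse property, `L_(qx) = L_q L_x th(q, x)`, and an element of
the centraliser of the right translations that moves `e` (helpers 8, 81)
-/

namespace ALoop

open Equiv

variable {Q : Type*} {G : Subgroup (Perm Q)} {L : Q → Perm Q} {J : Perm Q} {e : Q}

namespace AL

/-- a nontrivial element of `G` commuting with all right translations -/
theorem assoc_of_cent (h : AL G L J e)
    (hLR : ∀ x z, ∃ y w, (L x)⁻¹ * Rt L J z * L x = Rt L J y * (Rt L J w)⁻¹)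
    (hL' : ∀ x, (L x)⁻¹ = L (J x))
    {g : Perm Q} (hg : g ∈ G) (hgR : ∀ z, Commute g (Rt L J z)) (hge : g e ≠ e) : Assoc L := by
  have h0 := h.al0
  obtain ⟨C, hC⟩ : ∃ C : Perm Q → Prop, ∀ g, C g ↔ (g ∈ G ∧ ∀ z, Commute g (Rt L J z)) :=
    ⟨fun g => g ∈ G ∧ ∀ z, Commute g (Rt L J z), fun g => Iff.rfl⟩
  have hcon : ∀ x g, C g → C (L x * g * (L x)⁻¹) := by
    intro x g hgc
    rw [hC] at hgc ⊢
    refine ⟨G.mul_mem (G.mul_mem (h.memL x) hgc.1) (G.inv_mem (h.memL x)), fun z => ?_⟩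
    obtain ⟨y, w, hyw⟩ := hLR x z
    have h1 : Commute g ((L x)⁻¹ * Rt L J z * L x) := by
      rw [hyw]; exact (hgc.2 y).mul_right (hgc.2 w).inv_right
    change L x * g * (L x)⁻¹ * Rt L J z = Rt L J z * (L x * g * (L x)⁻¹)
    calc L x * g * (L x)⁻¹ * Rt L J z = L x * (g * ((L x)⁻¹ * Rt L J z * L x)) * (L x)⁻¹ := by
          group
      _ = L x * (((L x)⁻¹ * Rt L J z * L x) * g) * (L x)⁻¹ := by rw [h1.eq]
      _ = _ := by group
  have hconR : ∀ x g, C g → C (Rt L J x * g * (Rt L J x)⁻¹) := by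
    intro x g hgc
    have h1 : Rt L J x * g * (Rt L J x)⁻¹ = g := by
      rw [hC] at hgc
      rw [← (hgc.2 x).eq]; group
    rw [h1]; exact hgc
  have hconR' : ∀ x g, C g → C ((Rt L J x)⁻¹ * g * Rt L J x) := by
    intro x g hgc
    have h1 : (Rt L J x)⁻¹ * g * Rt L J x = g := by
      rw [hC] at hgc
      rw [mul_assoc, (hgc.2 x).eq]; group
    rw [h1]; exact hgc
  have hall : ∀ k ∈ G, (∀ g, C g → C (k * g * k⁻¹)) ∧ (∀ g, C g → C (k⁻¹ * g * k)) := by
    intro k hk
    rw [h.gen] at hk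
    induction hk using Subgroup.closure_induction with
    | mem k hk =>
      rcases hk with ⟨x, rfl⟩ | ⟨x, rfl⟩
      · refine ⟨hcon x, fun g hgc => ?_⟩
        have h1 := hcon (J x) g hgc
        rw [← hL', inv_inv] at h1
        exact h1
      · have h1 : J * L x * J = Rt L J (J x) := h0.JLJ x
        change (∀ g, C g → C ((J * L x * J) * g * (J * L x * J)⁻¹)) ∧
          (∀ g, C g → C ((J * L x * J)⁻¹ * g * (J * L x * J)))
        rw [h1]
        exact ⟨hconR _, hconR' _⟩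
    | one => exact ⟨fun g hgc => by simpa using hgc, fun g hgc => by simpa using hgc⟩
    | mul k k' _ _ h1 h2 =>
      refine ⟨fun g hgc => ?_, fun g hgc => ?_⟩
      · have h3 : k * k' * g * (k * k')⁻¹ = k * (k' * g * k'⁻¹) * k⁻¹ := by group
        rw [h3]; exact h1.1 _ (h2.1 _ hgc)
      · have h3 : (k * k')⁻¹ * g * (k * k') = k'⁻¹ * (k⁻¹ * g * k) * k' := by group
        rw [h3]; exact h2.2 _ (h1.2 _ hgc)
    | inv k _ h1 =>
      refine ⟨fun g hgc => ?_, fun g hgc => ?_⟩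
      · rw [inv_inv]; exact h1.2 _ hgc
      · rw [inv_inv]; exact h1.1 _ hgc
  have hprim := h.prim (fun p q => ∃ g, C g ∧ g p = q) ⟨?_, ?_, ?_⟩ ?_
  · rcases hprim with h1 | h1
    · exfalso
      apply hge
      exact (h1 e (g e) ⟨g, (hC g).2 ⟨hg, hgR⟩, rfl⟩).symm
    · have hLx : ∀ x z, Commute (L x) (Rt L J z) := by
        intro x z
        obtain ⟨k, hk, hkx⟩ := h1 e x
        rw [hC] at hk
        have h2 : k = L x := by
          ext w
          have h3 := congrArg (fun f : Perm Q => f e) (hk.2 w).eq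
          simp only [Perm.mul_apply] at h3
          rw [h0.Rt_e, hkx, h0.Rt_app] at h3
          exact h3
        rw [← h2]; exact hk.2 z
      intro x y z
      have h2 := congrArg (fun f : Perm Q => f y) (hLx x z).eq
      simp only [Perm.mul_apply] at h2
      rw [h0.Rt_app, h0.Rt_app] at h2
      exact h2.symm
  · intro p
    exact ⟨1, (hC 1).2 ⟨G.one_mem, fun z => Commute.one_left _⟩, rfl⟩
  · rintro p q ⟨k, hk, hkp⟩
    rw [hC] at hk
    exact ⟨k⁻¹, (hC _).2 ⟨G.inv_mem hk.1, fun z => (hk.2 z).inv_left⟩, by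
      rw [Perm.inv_eq_iff_eq, hkp]⟩
  · rintro p q r ⟨k, hk, hkp⟩ ⟨k', hk', hkq⟩
    rw [hC] at hk hk'
    exact ⟨k' * k, (hC _).2 ⟨G.mul_mem hk'.1 hk.1, fun z => (hk'.2 z).mul_left (hk.2 z)⟩, by
      rw [Perm.mul_apply, hkp, hkq]⟩
  · rintro k hk p q ⟨g', hg', hgp⟩
    exact ⟨k * g' * k⁻¹, (hall k hk).1 _ hg', by
      rw [Perm.mul_apply, Perm.mul_apply, inv_apply', hgp]⟩

/-- the end game from K7 -/
theorem assoc_of_K7 [Finite Q] (h : AL G L J e) (hfix : ∀ x, J x = x → x = e)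
    (hK7 : ∀ a b, Th L J a b b = b) {q₀ x₀ : Q} (hnc : L q₀ x₀ ≠ L x₀ q₀) : Assoc L := by
  have h0 := h.al0
  have hJJ := h.JJ1
  have hm : ∀ a b, Th L J a b ∈ G := h0.Th_mem
  have he : ∀ a b, Th L J a b e = e := h0.Th_e
  have hcR : ∀ a b, Commute (Th L J a b) (Rt L J b) := fun a b => h0.comR (hm a b) (he a b) (hK7 a b)
  have hcRJ : ∀ a b, Commute (Th L J a b) (Rt L J (J b)) := fun a b =>
    h0.comR (hm a b) (he a b) (h0.fixJ (hm a b) (he a b) (hK7 a b))
  have hcLb : ∀ a b, Commute (Th L J a b) (L b) := fun a b => h0.comL (hm a b) (he a b) (hK7 a b)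
  have hK1 : ∀ a b, Th L J a (J b) = (Th L J a b)⁻¹ := by
    intro a b
    have h1 := h0.K1 a b
    have h2 : Commute (Th L J a b) (Tx L J b) := by
      unfold Tx; exact (hcLb a b).mul_right (hcR a b).inv_right
    rw [h2.eq] at h1
    have h3 := mul_left_cancel h1
    rw [← h3, inv_inv]
  have hd : ∀ a b, (L a)⁻¹ * Rt L J b * L a = Rt L J b * (Th L J a b)⁻¹ := by
    intro a b; unfold Th; group
  have hLe1 : ∀ f : Perm Q, (∀ z, f * L z = L z * f) → f e = e → f = 1 := by
    intro f hf hfe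
    ext z
    have h1 := congrArg (fun p : Perm Q => p e) (hf z)
    simp only [Perm.mul_apply] at h1
    rw [h.Le, hfe, h.Le] at h1
    rw [h1, Perm.one_apply]
  have hIP : ∀ b, Rt L J b * Rt L J (J b) = 1 := by
    intro b
    apply hLe1
    · intro a
      have h1 : (L a)⁻¹ * (Rt L J b * Rt L J (J b)) * L a = Rt L J b * Rt L J (J b) := by
        calc (L a)⁻¹ * (Rt L J b * Rt L J (J b)) * L a =
            ((L a)⁻¹ * Rt L J b * L a) * ((L a)⁻¹ * Rt L J (J b) * L a) := by group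
          _ = Rt L J b * ((Th L J a b)⁻¹ * Rt L J (J b)) * Th L J a b := by
              rw [hd, hd, hK1, inv_inv]; group
          _ = Rt L J b * Rt L J (J b) := by rw [(hcRJ a b).inv_left.eq]; group
      calc Rt L J b * Rt L J (J b) * L a =
          L a * ((L a)⁻¹ * (Rt L J b * Rt L J (J b)) * L a) := by group
        _ = _ := by rw [h1]
    · rw [Perm.mul_apply, h0.Rt_e, h0.Rt_app, h0.JL]
  have hR' : ∀ b, Rt L J (J b) = (Rt L J b)⁻¹ := fun b =>
    (inv_eq_of_mul_eq_one_right (hIP b)).symm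
  have hL' : ∀ b, L (J b) = (L b)⁻¹ := by
    intro b
    have h1 := h0.JRJ (J b)
    rw [h0.JJ] at h1
    rw [← h0.JRJ b, ← h1, hR', mul_inv_rev, mul_inv_rev, inv_inv, h.Jinv]; group
  have hKa : ∀ a b, Th L J a b a = a := by
    intro a b
    have h1 := hK7 (J b) (J a)
    rw [h0.Th_inv, Perm.inv_eq_iff_eq] at h1
    have h2 := h0.fixJ (hm a b) (he a b) h1.symm
    rwa [h0.JJ] at h2
  have hcLa : ∀ a b, Commute (Th L J a b) (L a) := fun a b => h0.comL (hm a b) (he a b) (hKa a b)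
  have hcRa : ∀ a b, Commute (Th L J a b) (Rt L J a) := fun a b =>
    h0.comR (hm a b) (he a b) (hKa a b)
  have hThJ : ∀ a b, Commute (Th L J a b) J := h0.Th_J
  -- (2)
  obtain ⟨A, hA⟩ : ∃ A : Q → Q → Perm Q, ∀ q x, A q x = (L (L q x))⁻¹ * L q * L x :=
    ⟨fun q x => (L (L q x))⁻¹ * L q * L x, fun _ _ => rfl⟩
  have hAm : ∀ q x, A q x ∈ G := fun q x => by
    rw [hA]; exact G.mul_mem (G.mul_mem (G.inv_mem (h.memL _)) (h.memL _)) (h.memL _)
  have hAe : ∀ q x, A q x e = e := fun q x => by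
    rw [hA, Perm.mul_apply, Perm.mul_apply, h.Le, Perm.inv_eq_iff_eq, h.Le]
  have hAie : ∀ q x, (A q x)⁻¹ e = e := fun q x => by rw [Perm.inv_eq_iff_eq, hAe]
  have hAx : ∀ q x, A q x x = x := by
    intro q x
    have h1 := hK7 q x
    unfold Th at h1
    simp only [Perm.mul_apply] at h1
    rw [Perm.inv_eq_iff_eq, Perm.inv_eq_iff_eq, h0.Rt_app, h0.Rt_app] at h1
    rw [hA, Perm.mul_apply, Perm.mul_apply, h1, Perm.inv_eq_iff_eq]
  have hAJ : ∀ q x z, (A q x)⁻¹ (J z) = J ((A q x)⁻¹ z) := by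
    intro q x z
    have h1 := h.comJ _ (G.inv_mem (hAm q x)) (hAie q x)
    exact congrArg (fun p : Perm Q => p z) h1
  have hTJ : ∀ q x z, Th L J q x (J z) = J (Th L J q x z) := by
    intro q x z
    exact congrArg (fun p : Perm Q => p z) (hThJ q x).eq
  have hTie : ∀ q x, (Th L J q x)⁻¹ e = e := fun q x => by rw [Perm.inv_eq_iff_eq, he]
  have h2 : ∀ q x y, (A q x)⁻¹ (L x y) = (Th L J q y)⁻¹ (L x y) := by
    intro q x y
    rw [h0.aut (G.inv_mem (hAm q x)) (hAie q x), h0.aut (G.inv_mem (hm q y)) (hTie q y)]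
    have e1 : (A q x)⁻¹ x = x := by rw [Perm.inv_eq_iff_eq, hAx]
    have e2 : (Th L J q y)⁻¹ y = y := by rw [Perm.inv_eq_iff_eq, hK7]
    rw [e1, e2]
    apply (L q).injective
    have e3 : L q * L x * (A q x)⁻¹ = L (L q x) := by rw [hA]; group
    have e4 : L q * Rt L J y * (Th L J q y)⁻¹ = Rt L J y * L q := by unfold Th; group
    have e5 := congrArg (fun p : Perm Q => p y) e3
    have e6 := congrArg (fun p : Perm Q => p x) e4
    simp only [Perm.mul_apply] at e5 e6
    rw [e5, ← h0.Rt_app y (L q x), ← e6, h0.Rt_app]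
  have h3 : ∀ q x z, (A q x)⁻¹ z = (Th L J q (L (J x) z))⁻¹ z := by
    intro q x z
    have h4 := h2 q x (L (J x) z)
    have h5 : L x (L (J x) z) = z := by rw [hL', apply_inv']
    rwa [h5] at h4
  have hK1i : ∀ q w, (Th L J q (J w))⁻¹ = Th L J q w := fun q w => by rw [hK1, inv_inv]
  have h4 : ∀ q x z, (A q x)⁻¹ z = Th L J q (L z x) z := by
    intro q x z
    have h5 := h3 q x (J z)
    rw [← h.aaip, hK1i, hAJ, hTJ] at h5
    exact J.injective h5
  have h5 : ∀ q x z, Th L J q (L z x) z = Th L J q (L (J z) x) z := by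
    intro q x z
    rw [← h4, h3]
    have h6 : L (J x) z = J (L (J z) x) := by rw [h.aaip, h.JJ]
    rw [h6, hK1i]
  have h6 : ∀ q z x, Th L J q (L z (L z x)) z = Th L J q x z := by
    intro q z x
    rw [h5, hL', inv_apply']
  -- odd order of the translations
  have h7 : ∀ z, ∃ n : ℕ, Odd n ∧ (L z) ^ n = 1 := by
    intro z
    obtain ⟨n, hn, hnd⟩ := h.odd_DD hfix z e
    refine ⟨n, hn, ?_⟩
    have hfl : Commute (L z) (Rt L J z) := h0.flex z
    have e1 : D L J z * D L J e = L z * Rt L J z := by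
      have e2 : Rt L J z = J * (L z)⁻¹ * J := by
        rw [← hL']; rfl
      rw [h.D_e, e2]; unfold D; group
    rw [e1, hfl.mul_pow] at hnd
    have e3 : ∀ k : ℕ, ((Rt L J z) ^ k) e = ((L z) ^ k) e := by
      intro k
      induction k with
      | zero => rfl
      | succ k ih =>
        rw [pow_succ', Perm.mul_apply, ih, ← Perm.mul_apply, (hfl.symm.pow_right k).eq,
          Perm.mul_apply, h0.Rt_e, pow_succ, Perm.mul_apply, h.Le]
    obtain ⟨w, hw⟩ : ∃ w, w = ((L z) ^ n) e := ⟨_, rfl⟩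
    have e4 : ((L z) ^ n) w = e := by
      have e5 := congrArg (fun p : Perm Q => p e) hnd
      simp only [Perm.mul_apply, Perm.one_apply] at e5
      rw [e3, ← hw] at e5
      exact e5
    have e6 : J w = w := by
      -- `J w = R_z⁻ⁿ e = L_z⁻ⁿ e`
      have e7 : J * (L z) ^ n * J = ((Rt L J z)⁻¹) ^ n := by
        have e8 : (Rt L J z)⁻¹ = J * L z * J⁻¹ := by rw [← hR', ← h0.JLJ, h.Jinv]
        rw [e8, conj_pow, h.Jinv]
      have e9 : J w = (((Rt L J z)⁻¹) ^ n) e := by
        rw [← e7, Perm.mul_apply, Perm.mul_apply, h.Je, hw]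
      have e10 : ((Rt L J z) ^ n) w = e := by
        have e11 := congrArg (fun p : Perm Q => p e) hnd
        have e12 : ((L z) ^ n * (Rt L J z) ^ n) = ((Rt L J z) ^ n * (L z) ^ n) :=
          (hfl.pow_pow n n).eq
        rw [e12] at e11
        simp only [Perm.mul_apply, Perm.one_apply] at e11
        rw [← hw] at e11
        exact e11
      rw [e9, inv_pow, Perm.inv_eq_iff_eq, e10]
    have hwe : w = e := hfix w e6
    -- `L_(z^k) = L_z^k`
    have e13 : ∀ k : ℕ, L (((L z) ^ k) e) = (L z) ^ k ∧ ∀ y, Th L J z y (((L z) ^ k) e) =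
        ((L z) ^ k) e := by
      intro k
      induction k with
      | zero =>
        refine ⟨?_, fun y => he z y⟩
        rw [pow_zero, Perm.one_apply]; exact h.Le1
      | succ k ih =>
        obtain ⟨i1, i2⟩ := ih
        have i3 : ((L z) ^ (k + 1)) e = L z (((L z) ^ k) e) := by
          rw [pow_succ', Perm.mul_apply]
        rw [i3]
        refine ⟨?_, fun y => ?_⟩
        · have i5 : L (L z (((L z) ^ k) e)) = L z * L (((L z) ^ k) e) := by
            ext y
            have i4 := i2 y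
            unfold Th at i4
            simp only [Perm.mul_apply] at i4
            rw [Perm.inv_eq_iff_eq, Perm.inv_eq_iff_eq, h0.Rt_app, h0.Rt_app] at i4
            rw [Perm.mul_apply, i4]
          rw [i5, i1, ← pow_succ']
        · rw [h0.aut (hm z y) (he z y), hKa, i2]
    rw [← (e13 n).1, ← hw, hwe]
    exact h.Le1
  have h8 : ∀ q z x, Th L J q (L z x) z = Th L J q x z := by
    intro q z x
    obtain ⟨n, hn, hnz⟩ := h7 z
    obtain ⟨m, hm'⟩ := hn
    have h9 : ∀ k : ℕ, ∀ x, Th L J q (((L z) ^ (2 * k)) x) z = Th L J q x z := by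
      intro k
      induction k with
      | zero => intro x; rfl
      | succ k ih =>
        intro x
        have h10 : ((L z) ^ (2 * (k + 1))) x = ((L z) ^ (2 * k)) (L z (L z x)) := by
          rw [show 2 * (k + 1) = 2 * k + 1 + 1 by ring, pow_succ, pow_succ, Perm.mul_apply,
            Perm.mul_apply]
        rw [h10, ih, h6]
    have h11 := h9 (m + 1) x
    have h12 : (L z) ^ (2 * (m + 1)) = L z := by
      rw [show 2 * (m + 1) = n + 1 by omega, pow_succ, hnz, one_mul]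
    rwa [h12] at h11
  have h9 : ∀ q x, (A q x)⁻¹ = Th L J q x := by
    intro q x
    ext z
    rw [h4, h8]
  have h10 : ∀ q x, L (L q x) = L q * L x * Th L J q x := by
    intro q x
    rw [← h9, hA]; group
  have h11 : ∀ x z, Rt L J (L x z) = (L x)⁻¹ * Rt L J z * (L x * Rt L J x) := by
    intro x z
    have e1 : Rt L J (L x z) = J * L (L (J z) (J x)) * J := by
      unfold Rt; rw [h.aaip]
    have e2 : J * (Th L J x z)⁻¹ * J = (Th L J x z)⁻¹ := by
      rw [← (hThJ x z).inv_left.eq, mul_assoc, hJJ, mul_one]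
    rw [e1, h10, h0.Th_inv]
    calc J * (L (J z) * L (J x) * (Th L J x z)⁻¹) * J =
        J * L (J z) * 1 * L (J x) * 1 * (Th L J x z)⁻¹ * J := by group
      _ = J * L (J z) * (J * J) * L (J x) * (J * J) * (Th L J x z)⁻¹ * J := by rw [hJJ]
      _ = Rt L J z * Rt L J x * (J * (Th L J x z)⁻¹ * J) := by unfold Rt; group
      _ = Rt L J z * ((Th L J x z)⁻¹ * Rt L J x) := by
          rw [e2, (hcRa x z).inv_left.eq]; group
      _ = ((L x)⁻¹ * Rt L J z * L x) * Rt L J x := by rw [hd]; group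
      _ = _ := by group
  -- (3)
  obtain ⟨q, hq⟩ : ∃ q, q = q₀ := ⟨_, rfl⟩
  obtain ⟨x, hx⟩ : ∃ x, x = x₀ := ⟨_, rfl⟩
  rw [← hq, ← hx] at hnc
  obtain ⟨be, hbe⟩ : ∃ be, be = L (L q x) * (L q)⁻¹ * (L x)⁻¹ := ⟨_, rfl⟩
  obtain ⟨gam, hgam⟩ : ∃ gam, gam = (L x * Rt L J x) * (L q * Rt L J q) *
    (L (L q x) * Rt L J (L q x))⁻¹ := ⟨_, rfl⟩
  have k1 : ∀ z, A q x * Rt L J z * (A q x)⁻¹ = be * Rt L J z * gam := by
    intro z
    have e1 : L (L q x) (A q x z) = L q (L x z) := by
      rw [hA]; simp only [Perm.mul_apply]; rw [apply_inv']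
    have e2 := h11 (L q x) (A q x z)
    rw [e1, h11, h11] at e2
    rw [h0.Rt_conj (hAm q x) (hAe q x)]
    calc Rt L J (A q x z) = L (L q x) * ((L (L q x))⁻¹ * Rt L J (A q x z) *
          (L (L q x) * Rt L J (L q x))) * (L (L q x) * Rt L J (L q x))⁻¹ := by group
      _ = _ := by rw [← e2, hbe, hgam]; group
  have hRe : Rt L J e = 1 := by
    unfold Rt; rw [h.Je, h.Le1, mul_one, hJJ]
  have k2 : be * gam = 1 := by
    have e1 := k1 e
    rw [hRe, mul_one, mul_one, mul_inv_cancel] at e1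
    exact e1.symm
  have k3 : gam * be = 1 := mul_eq_one_comm.1 k2
  have hbeG : be ∈ G := by
    rw [hbe]
    exact G.mul_mem (G.mul_mem (h.memL _) (G.inv_mem (h.memL _))) (G.inv_mem (h.memL _))
  refine h.assoc_of_cent (g := (A q x)⁻¹ * be) ?_ (fun b => (hL' b).symm)
    (G.mul_mem (G.inv_mem (hAm q x)) hbeG) ?_ ?_
  · intro y z
    refine ⟨L y z, y, ?_⟩
    rw [h11]; group
  · intro z
    change (A q x)⁻¹ * be * Rt L J z = Rt L J z * ((A q x)⁻¹ * be)
    calc (A q x)⁻¹ * be * Rt L J z = (A q x)⁻¹ * (be * Rt L J z * 1) := by group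
      _ = (A q x)⁻¹ * (be * Rt L J z * gam) * be := by rw [← k3]; group
      _ = (A q x)⁻¹ * (A q x * Rt L J z * (A q x)⁻¹) * be := by rw [← k1]
      _ = _ := by group
  · intro hcon
    apply hnc
    rw [Perm.mul_apply, Perm.inv_eq_iff_eq, hAe, hbe] at hcon
    simp only [Perm.mul_apply] at hcon
    rw [h0.L_inv_e, ← hL'] at hcon
    have e1 : L (J q) (J x) = J (L q x) := by
      apply (L (L q x)).injective
      rw [hcon, h.LJ]
    rw [← h.aaip] at e1
    exact (J.injective e1).symm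

end AL

end ALoop
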