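import Pool.Agent.H38.O1.N3
import Pool.Agent.H38.O2.Main

set_option autoImplicit false

/-!
# Case (O1), towards K7 (helper17's eta, helper79's trick)
-/

namespace ALoop

open Equiv

variable {Q : Type*} {G : Subgroup (Perm Q)} {L : Q → Perm Q} {J : Perm Q} {e : Q}

/-- helper79's trick -/
theorem trick {M : Type*} [Group M] {l r x y : M} (hlr : Commute l r) (hxy : Commute x y)
    (hlx : Commute l x) (hry : Commute r y) (hc : Commute (l * r) (x * y)) :
    Commute (l * r⁻¹) (x * y⁻¹) := by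
  obtain ⟨c1, h1⟩ : ∃ c1, c1 = l * y * l⁻¹ * y⁻¹ := ⟨_, rfl⟩
  obtain ⟨c2, h2⟩ : ∃ c2, c2 = r * x * r⁻¹ * x⁻¹ := ⟨_, rfl⟩
  have a1 : Commute c1 r := by
    rw [h1]
    exact ((hlr.mul_left hry.symm).mul_left hlr.inv_left).mul_left hry.symm.inv_left
  have a2 : Commute c1 x := by
    rw [h1]
    exact ((hlx.mul_left hxy.symm).mul_left hlx.inv_left).mul_left hxy.symm.inv_left
  have a3 : Commute c2 l := by
    rw [h2]
    exact ((hlr.symm.mul_left hlx.symm).mul_left hlr.symm.inv_left).mul_left hlx.symm.inv_left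
  have a4 : Commute c2 y := by
    rw [h2]
    exact ((hry.mul_left hxy).mul_left hry.inv_left).mul_left hxy.inv_left
  have e1 : r * x = c2 * x * r := by rw [h2]; group
  have e2 : l * y = c1 * y * l := by rw [h1]; group
  have e3 : l * r * (x * y) = c2 * c1 * (x * y * (l * r)) := by
    calc l * r * (x * y) = l * (r * x) * y := by group
      _ = (l * c2) * x * (r * y) := by rw [e1]; group
      _ = (c2 * l) * x * (y * r) := by rw [a3.eq, hry.eq]
      _ = c2 * (l * x) * y * r := by group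
      _ = c2 * (x * l) * y * r := by rw [hlx.eq]
      _ = c2 * x * (l * y) * r := by group
      _ = c2 * (x * c1) * y * (l * r) := by rw [e2]; group
      _ = c2 * (c1 * x) * y * (l * r) := by rw [a2.eq]
      _ = c2 * c1 * (x * y * (l * r)) := by group
  have e4 : c2 * c1 = 1 := by
    rw [hc.eq] at e3
    have h3 : c2 * c1 * (x * y * (l * r)) = 1 * (x * y * (l * r)) := by rw [← e3, one_mul]
    exact mul_right_cancel h3
  have e5 : c2⁻¹ = c1 := inv_eq_of_mul_eq_one_right e4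
  have a5 : Commute c1 l := by rw [← e5]; exact a3.inv_left
  have a6 : Commute c1 y := by rw [← e5]; exact a4.inv_left
  have a7 : Commute c2 r := by
    have h3 : c2 = c1⁻¹ := by rw [← e5, inv_inv]
    rw [h3]; exact a1.inv_left
  have f1 : r⁻¹ * x * r = c1 * x := by
    calc r⁻¹ * x * r = r⁻¹ * c2⁻¹ * (c2 * x * r) := by group
      _ = r⁻¹ * c2⁻¹ * (r * x) := by rw [e1]
      _ = (r⁻¹ * (c2⁻¹ * r)) * x := by group
      _ = (r⁻¹ * (r * c2⁻¹)) * x := by rw [a7.inv_left.eq]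
      _ = c2⁻¹ * x := by group
      _ = c1 * x := by rw [e5]
  have f2 : l * y⁻¹ * l⁻¹ = y⁻¹ * c1⁻¹ := by
    have h3 : l * y * l⁻¹ = c1 * y := by rw [e2]; group
    have h4 : (l * y * l⁻¹)⁻¹ = (c1 * y)⁻¹ := by rw [h3]
    calc l * y⁻¹ * l⁻¹ = (l * y * l⁻¹)⁻¹ := by group
      _ = y⁻¹ * c1⁻¹ := by rw [h4]; group
  have f3 : r⁻¹ * y⁻¹ * r = y⁻¹ := by
    have h3 : Commute r⁻¹ y⁻¹ := hry.inv_left.inv_right
    rw [h3.eq]; group
  have f4 : l * (c1 * x) * l⁻¹ = c1 * x := by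
    have h3 : Commute l (c1 * x) := a5.symm.mul_right hlx
    rw [h3.eq]; group
  have f5 : l * r⁻¹ * (x * y⁻¹) * (l * r⁻¹)⁻¹ = x * y⁻¹ := by
    calc l * r⁻¹ * (x * y⁻¹) * (l * r⁻¹)⁻¹ =
        l * ((r⁻¹ * x * r) * (r⁻¹ * y⁻¹ * r)) * l⁻¹ := by group
      _ = (l * (c1 * x) * l⁻¹) * (l * y⁻¹ * l⁻¹) := by rw [f1, f3]; group
      _ = c1 * (x * y⁻¹) * c1⁻¹ := by rw [f4, f2]; group
      _ = x * y⁻¹ := by
          have h3 : Commute c1 (x * y⁻¹) := a2.mul_right a6.inv_right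
          rw [h3.eq]; group
  change l * r⁻¹ * (x * y⁻¹) = x * y⁻¹ * (l * r⁻¹)
  calc l * r⁻¹ * (x * y⁻¹) = (l * r⁻¹ * (x * y⁻¹) * (l * r⁻¹)⁻¹) * (l * r⁻¹) := by group
    _ = _ := by rw [f5]

namespace AL0

theorem Rt_conj (h : AL0 G L J e) {g : Perm Q} (hg : g ∈ G) (hge : g e = e) (x : Q) :
    g * Rt L J x * g⁻¹ = Rt L J (g x) := by
  have h1 := h.comJ g hg hge
  have h2 := h.equi g hg hge (J x)
  have h3 : g (J x) = J (g x) := by
    have := congrArg (fun p : Perm Q => p x) h1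
    simpa only [Perm.mul_apply] using this
  rw [h3] at h2
  have h4 : J * g⁻¹ = g⁻¹ * J := by
    calc J * g⁻¹ = g⁻¹ * (g * J) * g⁻¹ := by group
      _ = g⁻¹ * (J * g) * g⁻¹ := by rw [h1]
      _ = g⁻¹ * J := by group
  unfold Rt
  rw [← h2]
  calc g * (J * L (J x) * J) * g⁻¹ = (g * J) * L (J x) * (J * g⁻¹) := by group
    _ = (J * g) * L (J x) * (g⁻¹ * J) := by rw [h1, h4]
    _ = J * (g * L (J x) * g⁻¹) * J := by group

theorem Tx_conj (h : AL0 G L J e) {g : Perm Q} (hg : g ∈ G) (hge : g e = e) (x : Q) :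
    g * Tx L J x * g⁻¹ = Tx L J (g x) := by
  unfold Tx
  rw [← h.Rt_conj hg hge, ← h.equi g hg hge]
  group

theorem Nsp_th (h : AL0 G L J e) {b s : Q} (hs : Nsp L s b) (w : Q) : Th L J b w s = s := by
  unfold Th
  simp only [Perm.mul_apply]
  rw [Perm.inv_eq_iff_eq, Perm.inv_eq_iff_eq, h.Rt_app, h.Rt_app,
    ← (show L b * L s = L (L b s) from hs), Perm.mul_apply]

theorem Nsp_of_th (h : AL0 G L J e) {b s : Q} (hs : ∀ w, Th L J b w s = s) : Nsp L s b := by
  unfold Nsp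
  ext w
  have h1 := hs w
  unfold Th at h1
  simp only [Perm.mul_apply] at h1
  rw [Perm.inv_eq_iff_eq, Perm.inv_eq_iff_eq, h.Rt_app, h.Rt_app] at h1
  rw [Perm.mul_apply, h1]

theorem Nsp_th' (h : AL0 G L J e) {b s : Q} (hs : Nsp L s b) (a : Q) : Th L J a b s = s := by
  have h1 := h.Nsp_th (h.Nsp_inv hs) (J a)
  rw [h.Th_inv, Perm.inv_eq_iff_eq] at h1
  exact h1.symm

theorem Nsp_ldiv_left (h : AL0 G L J e) {b s x : Q} (hs : Nsp L s b) (hx : Nsp L (L s x) b) :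
    Nsp L x b := by
  refine h.Nsp_of_th fun w => ?_
  have h1 := h.Nsp_th hs w
  have h2 := h.Nsp_th hx w
  rw [h.aut (h.Th_mem b w) (h.Th_e b w), h1] at h2
  exact (L s).injective h2

theorem Nsp_rdiv (h : AL0 G L J e) {c q b : Q} (hq : Nsp L c (L q b)) (hb : Nsp L c b) :
    Nsp L c q := by
  rw [h.Nsp_iff] at hq hb ⊢
  intro w
  obtain ⟨h1, h2⟩ := h.Nsp_r c w
  have h3 := hq w
  rw [h.aut h1 h2, hb w] at h3
  apply (Rt L J b).injective
  rw [h.Rt_app, h.Rt_app]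
  exact h3

end AL0

namespace AL

/-- helper17: `T_b⁻¹ T_(t b)` commutes with all its images under the reflections -/
theorem eta_com (h : AL G L J e) (a b q : Q) {eta : Perm Q}
    (heta : eta = (Tx L J b)⁻¹ * Th L J a b * Tx L J b * (Th L J a b)⁻¹) :
    Commute eta (D L J q * eta * D L J q) := by
  have h0 := h.al0
  have hJJ := h.JJ1
  have htG := h0.Th_mem a b
  have hte := h0.Th_e a b
  have hTG := h0.Tx_mem b
  have hTe := h0.Tx_e b
  have hTb := h0.Tx_x b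
  have hK1 := h0.K1 a b
  obtain ⟨t', ht'⟩ : ∃ t', t' = Th L J a (J b) := ⟨_, rfl⟩
  have hfc : ∀ {c}, Nsp L c b → Th L J a b c = c ∧ t' c = c := by
    intro c hc
    exact ⟨h0.Nsp_th' hc a, by rw [ht']; exact h0.Nsp_th' (h0.Nsp_inv hc) a⟩
  have htie : (Th L J a b)⁻¹ e = e := by rw [Perm.inv_eq_iff_eq, hte]
  have ht'G : t' ∈ G := by rw [ht']; exact h0.Th_mem a (J b)
  have ht'e : t' e = e := by rw [ht']; exact h0.Th_e a (J b)
  have heta2 : eta = t'⁻¹ * (Th L J a b)⁻¹ := by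
    rw [← ht'] at hK1
    rw [heta]
    calc (Tx L J b)⁻¹ * Th L J a b * Tx L J b * (Th L J a b)⁻¹ =
        (Tx L J b)⁻¹ * (Th L J a b * Tx L J b) * (Th L J a b)⁻¹ := by group
      _ = t'⁻¹ * (Th L J a b)⁻¹ := by rw [← hK1]; group
  have hT1 := h0.Tx_conj htG hte b
  have hN3 := h0.N3 b q
  have hN4 := h0.N4 b q
  obtain ⟨t, ht⟩ : ∃ t, t = Th L J a b := ⟨_, rfl⟩
  rw [← ht] at htG hte heta heta2 htie hT1
  have hfc' : ∀ {c}, Nsp L c b → t c = c ∧ t' c = c := by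
    intro c hc
    rw [ht]; exact hfc hc
  obtain ⟨T, hT⟩ : ∃ T, T = Tx L J b := ⟨_, rfl⟩
  rw [← hT] at hTG hTe hTb heta hN3 hN4 hT1
  have hetaG : eta ∈ G := by rw [heta2]; exact G.mul_mem (G.inv_mem ht'G) (G.inv_mem htG)
  have hetae : eta e = e := by
    rw [heta2, Perm.mul_apply, htie, Perm.inv_eq_iff_eq, ht'e]
  have hTeta : T * eta = t * T * t⁻¹ := by rw [heta]; group
  -- `s₁`
  have hM3 := h0.N3 (t b) q
  have hM4 := h0.N4 (t b) q
  rw [← hT1, ← hTeta] at hM3 hM4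
  obtain ⟨s, hs⟩ : ∃ s, s = (L q)⁻¹ (T q) := ⟨_, rfl⟩
  obtain ⟨s1, hs1⟩ : ∃ s1, s1 = (L q)⁻¹ ((T * eta) q) := ⟨_, rfl⟩
  rw [← hs] at hN3 hN4
  rw [← hs1] at hM3 hM4
  have hM5 : Nsp L s1 b := by
    have h1 := h0.Nsp_inn (G.inv_mem htG) htie hM4
    rw [inv_apply'] at h1
    have h2 := (hfc' h1).1
    rw [apply_inv'] at h2
    rw [← h2] at h1
    exact h1
  obtain ⟨c, hc⟩ : ∃ c, c = (L q)⁻¹ (eta q) := ⟨_, rfl⟩
  have hcq : L q c = eta q := by rw [hc, apply_inv']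
  have hTc : L s (T c) = s1 := by
    apply (L q).injective
    rw [hs1, apply_inv', Perm.mul_apply, ← hcq, h0.aut hTG hTe]
    have h1 : L q s = T q := by rw [hs, apply_inv']
    rw [← h1, ← (show L q * L s = L (L q s) from hN3), Perm.mul_apply]
  have hTcq : Nsp L (T c) q := h0.Nsp_ldiv_left hN3 (by rw [hTc]; exact hM3)
  have hTcb : Nsp L (T c) b := h0.Nsp_ldiv_left hN4 (by rw [hTc]; exact hM5)
  have hTie : T⁻¹ e = e := by rw [Perm.inv_eq_iff_eq, hTe]
  have hcb : Nsp L c b := by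
    have h1 := h0.Nsp_inn (G.inv_mem hTG) hTie hTcb
    rw [inv_apply'] at h1
    have h2 : T⁻¹ b = b := by rw [Perm.inv_eq_iff_eq, hTb]
    rwa [h2] at h1
  have hcTq : Nsp L c (T⁻¹ q) := by
    have h1 := h0.Nsp_inn (G.inv_mem hTG) hTie hTcq
    rwa [inv_apply'] at h1
  have hcq2 : Nsp L c q := by
    refine h0.Nsp_rdiv (b := b) ?_ hcb
    have h1 := h0.Nsp_mul hcb hcTq
    have h2 : L b (T⁻¹ q) = L q b := by
      have h3 : L b * T⁻¹ = Rt L J b := by
        rw [hT]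
        unfold Tx
        have h4 := h0.flex b
        calc L b * (L b * (Rt L J b)⁻¹)⁻¹ = (L b * Rt L J b) * (L b)⁻¹ := by group
          _ = Rt L J b := by rw [h4]; group
      have h5 := congrArg (fun f : Perm Q => f q) h3
      simp only [Perm.mul_apply] at h5
      rw [h5, h0.Rt_app]
    rwa [h2] at h1
  have hetac : eta c = c := by
    obtain ⟨h1, h2⟩ := hfc' hcb
    rw [heta2, Perm.mul_apply]
    have h3 : t⁻¹ c = c := by rw [Perm.inv_eq_iff_eq, h1]
    rw [h3, Perm.inv_eq_iff_eq, h2]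
  -- the reflection
  have hDD := h.D_sq q
  have hDe : ∀ x, eta * D L J x * eta⁻¹ = D L J (eta x) := fun x => h.D_conj hetaG x
  have hLe : eta * L q * eta⁻¹ = L q * L c := by
    rw [h.equi eta hetaG hetae, ← hcq]
    exact (show L q * L c = L (L q c) from hcq2).symm
  obtain ⟨A, hA⟩ : ∃ A, A = eta * (D L J q * eta⁻¹ * D L J q) := ⟨_, rfl⟩
  have hA1 : A = L q * (D L J c * J) * (L q)⁻¹ := by
    have h1 := h.D_conj (h.memL q) c
    rw [hcq, ← hDe] at h1
    calc A = (eta * D L J q * eta⁻¹) * D L J q := by rw [hA]; group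
      _ = (L q * D L J c * (L q)⁻¹) * (L q * J * (L q)⁻¹) := by rw [← h1]; rfl
      _ = _ := by group
  have hcomc : L c * (D L J c * J) * (L c)⁻¹ = D L J c * J := by
    have h1 := h0.LRJ c
    have h2 : (Rt L J (J c))⁻¹ = J * (L c)⁻¹ * J := by
      rw [← h0.JLJ c, mul_inv_rev, mul_inv_rev, h.Jinv]; group
    have h3 : D L J c * J = L c * (Rt L J (J c))⁻¹ := by
      rw [h2]; unfold D; group
    have h4 : Commute (L c) (L c * (Rt L J (J c))⁻¹) :=
      (Commute.refl _).mul_right (show Commute (L c) (Rt L J (J c)) from h1).inv_right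
    rw [h3, h4.eq]; group
  have hJe : eta * J = J * eta := h.comJ eta hetaG hetae
  have hA2 : eta * A * eta⁻¹ = A := by
    have h1 : eta * (D L J c * J) * eta⁻¹ = D L J c * J := by
      calc eta * (D L J c * J) * eta⁻¹ = (eta * D L J c * eta⁻¹) * (eta * J) * eta⁻¹ := by group
        _ = D L J c * (J * eta) * eta⁻¹ := by rw [hDe, hetac, hJe]
        _ = D L J c * J := by group
    calc eta * A * eta⁻¹ = (eta * L q * eta⁻¹) * (eta * (D L J c * J) * eta⁻¹) *
          (eta * L q * eta⁻¹)⁻¹ := by rw [hA1]; group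
      _ = L q * (L c * (D L J c * J) * (L c)⁻¹) * (L q)⁻¹ := by rw [hLe, h1]; group
      _ = A := by rw [hcomc, hA1]
  have hA3 : Commute eta A := by
    change eta * A = A * eta
    calc eta * A = (eta * A * eta⁻¹) * eta := by group
      _ = A * eta := by rw [hA2]
  have hA4 : Commute eta (D L J q * eta⁻¹ * D L J q) := by
    have h1 : D L J q * eta⁻¹ * D L J q = eta⁻¹ * A := by rw [hA]; group
    rw [h1]
    exact (Commute.refl eta).inv_right.mul_right hA3
  have hA5 : D L J q * eta * D L J q = (D L J q * eta⁻¹ * D L J q)⁻¹ := by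
    rw [mul_inv_rev, mul_inv_rev, inv_inv, inv_eq_of_mul_eq_one_left hDD]; group
  rw [hA5]
  exact hA4.inv_right

end AL

end ALoop
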