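import Pool.Agent.H2.O1.Eta

set_option autoImplicit false

/-!
# Case (O1), K7: `th(a, b) b = b` in a finite simple nonassociative automorphic loop of odd order
(helpers 93, 77, 17, 79)
-/

namespace ALoop

open Equiv

variable {Q : Type*} {G : Subgroup (Perm Q)} {L : Q → Perm Q} {J : Perm Q} {e : Q}

namespace AL

theorem JDJ (h : AL G L J e) (x : Q) : J * D L J x * J = D L J (J x) := by
  have h0 := h.al0
  have h1 := h.D_conj (h0.memR (J x)) e
  rw [h.D_e, h0.Rt_e, ← h0.JLJ] at h1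
  rw [← h1]
  have h2 : (J * L x * J)⁻¹ = J * (L x)⁻¹ * J := by
    rw [mul_inv_rev, mul_inv_rev, h.Jinv]; group
  rw [h2]
  unfold D
  calc J * (L x * J * (L x)⁻¹) * J = J * L x * J * (L x)⁻¹ * J := by group
    _ = J * L x * (J * J) * J * (L x)⁻¹ * J := by rw [h.JJ1, mul_one]
    _ = J * L x * J * J * (J * (L x)⁻¹ * J) := by group

/-- the first part of K7 (helper93): `l = L_b⁻¹ L_(t b)` -/
theorem exists_l (h : AL G L J e) (a b : Q) : ∃ (l t1 : Perm Q) (u : Q) (hh : Perm Q),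
    l ∈ G ∧ L (Th L J a b b) = L b * l ∧ L b u = Th L J a b b ∧
    hh ∈ G ∧ hh e = e ∧ hh * L u = L u * hh ∧ l = L u * hh⁻¹ ∧
    Th L J a b * l = l * Th L J a b ∧
    l * (J * l * J) = (J * l * J) * l ∧
    t1 = (Tx L J b)⁻¹ * Th L J a b * Tx L J b ∧
    l * (J * l * J) = t1 * (Th L J a b)⁻¹ := by
  have h0 := h.al0
  have hJJ := h.JJ1
  have htG := h0.Th_mem a b
  have hte := h0.Th_e a b
  have htJ := h0.Th_J a b
  have hK1 := h0.K1 a b
  have hTG := h0.Tx_mem b
  have hTe := h0.Tx_e b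
  have hTR := h0.L_eq b
  have hRR := h0.RRJ b
  have htd : (L a)⁻¹ * Rt L J b * L a = Rt L J b * (Th L J a b)⁻¹ := by unfold Th; group
  have htd' : (L a)⁻¹ * Rt L J (J b) * L a = Rt L J (J b) * (Th L J a (J b))⁻¹ := by
    unfold Th; group
  have htw : ∀ g : Perm Q, Commute g (L a) → Commute g (Rt L J b) → Commute g (Th L J a b) := by
    intro g h1 h2
    unfold Th
    exact ((h1.inv_right.mul_right h2.inv_right).mul_right h1).mul_right h2
  have hTJ := h0.Tx_J b
  obtain ⟨t, ht⟩ : ∃ t, t = Th L J a b := ⟨_, rfl⟩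
  obtain ⟨T, hT⟩ : ∃ T, T = Tx L J b := ⟨_, rfl⟩
  rw [← ht] at htG hte htJ hK1 htd
  rw [← hT] at hK1 hTG hTe hTR hTJ
  obtain ⟨t1, ht1⟩ : ∃ t1, t1 = T⁻¹ * t * T := ⟨_, rfl⟩
  have hK1' : (Th L J a (J b))⁻¹ = t1 := by
    rw [ht1, mul_assoc, ← hK1]; group
  rw [hK1'] at htd'
  have ht1J : J * t1 * J = t1 := by
    have h1 : Commute J T := hTJ.symm
    have h2 : Commute J t := htJ.symm
    have h3 : Commute J t1 := by
      rw [ht1]; exact (h1.inv_right.mul_right h2).mul_right h1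
    rw [h3.eq, mul_assoc, hJJ, mul_one]
  have htJ' : J * t * J = t := by rw [← htJ, mul_assoc, hJJ, mul_one]
  obtain ⟨z, hz⟩ : ∃ z, z = (L b)⁻¹ * t * L b := ⟨_, rfl⟩
  obtain ⟨y, hy⟩ : ∃ y, y = J * z * J := ⟨_, rfl⟩
  have hzJ : J * y * J = z := by
    rw [hy]
    calc J * (J * z * J) * J = (J * J) * z * (J * J) := by group
      _ = z := by rw [hJJ]; group
  have f5 : (Rt L J (J b))⁻¹ * t * Rt L J (J b) = y := by
    rw [← h0.JLJ b, mul_inv_rev, mul_inv_rev, h.Jinv, hy, hz]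
    calc J * ((L b)⁻¹ * J) * t * (J * L b * J) = J * (L b)⁻¹ * (J * t * J) * L b * J := by group
      _ = J * ((L b)⁻¹ * t * L b) * J := by rw [htJ']; group
  have f6 : (Rt L J b)⁻¹ * t1 * Rt L J b = z := by
    rw [ht1, hz, hTR]; group
  have f4 : Rt L J b * t⁻¹ * (Rt L J (J b) * t1) = Rt L J (J b) * t1 * (Rt L J b * t⁻¹) := by
    rw [← htd, ← htd']
    calc (L a)⁻¹ * Rt L J b * L a * ((L a)⁻¹ * Rt L J (J b) * L a) =
        (L a)⁻¹ * (Rt L J b * Rt L J (J b)) * L a := by group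
      _ = (L a)⁻¹ * (Rt L J (J b) * Rt L J b) * L a := by rw [hRR]
      _ = _ := by group
  obtain ⟨mu, hmu⟩ : ∃ mu, mu = Rt L J b * Rt L J (J b) := ⟨_, rfl⟩
  have f7a : Rt L J b * t⁻¹ * (Rt L J (J b) * t1) = mu * (y⁻¹ * t1) := by
    rw [← f5, hmu]; group
  have f7b : Rt L J (J b) * t1 * (Rt L J b * t⁻¹) = mu * (z * t⁻¹) := by
    rw [← f6, hmu, hRR]; group
  have f7 : y⁻¹ * t1 = z * t⁻¹ := by
    rw [f7a, f7b] at f4
    exact mul_left_cancel f4
  have f8 : t1 * t = y * z := by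
    calc t1 * t = y * (y⁻¹ * t1) * t := by group
      _ = y * z := by rw [f7]; group
  have f9 : t1 * t = z * y := by
    calc t1 * t = (J * t1 * J) * (J * t * J) := by rw [ht1J, htJ']
      _ = J * t1 * (J * J) * t * J := by group
      _ = J * (t1 * t) * J := by rw [hJJ]; group
      _ = J * (y * 1 * z) * J := by rw [f8]; group
      _ = J * (y * (J * J) * z) * J := by rw [hJJ]
      _ = (J * y * J) * (J * z * J) := by group
      _ = z * y := by rw [hzJ, ← hy]
  obtain ⟨l, hl⟩ : ∃ l, l = z * t⁻¹ := ⟨_, rfl⟩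
  have hLtb : L (t b) = L b * l := by
    rw [← h.equi t htG hte, hl, hz]; group
  have hzG : z ∈ G := by
    rw [hz]; exact G.mul_mem (G.mul_mem (G.inv_mem (h.memL _)) htG) (h.memL _)
  have hlG : l ∈ G := by rw [hl]; exact G.mul_mem hzG (G.inv_mem htG)
  -- mu
  have hmuG : mu ∈ G := by rw [hmu]; exact G.mul_mem (h0.memR _) (h0.memR _)
  have hmue : mu e = e := by
    rw [hmu, Perm.mul_apply, h0.Rt_e, h0.Rt_app, h0.JL]
  have f10 : (L a)⁻¹ * mu * L a = mu * l := by
    calc (L a)⁻¹ * mu * L a = ((L a)⁻¹ * Rt L J b * L a) * ((L a)⁻¹ * Rt L J (J b) * L a) := by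
          rw [hmu]; group
      _ = mu * l := by rw [htd, htd', f7a, f7, hl]
  have hmuie : mu⁻¹ e = e := by rw [Perm.inv_eq_iff_eq, hmue]
  obtain ⟨a', ha'⟩ : ∃ a', a' = mu⁻¹ a := ⟨_, rfl⟩
  have hmua : mu a' = a := by rw [ha', apply_inv']
  have f11 : l = (L a')⁻¹ * L a := by
    have h1 := h.equi mu⁻¹ (G.inv_mem hmuG) hmuie a
    rw [← ha', inv_inv] at h1
    rw [← h1]
    calc l = mu⁻¹ * (mu * l) := by group
      _ = _ := by rw [← f10]; group
  obtain ⟨u, hu⟩ : ∃ u, u = l e := ⟨_, rfl⟩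
  have hbu : L b u = t b := by
    have h1 := congrArg (fun f : Perm Q => f e) hLtb
    simp only [Perm.mul_apply] at h1
    rw [h.Le, ← hu] at h1
    exact h1.symm
  have hau : L a' u = a := by
    rw [hu, f11, Perm.mul_apply, apply_inv', h.Le]
  obtain ⟨hh, hhd⟩ : ∃ hh, hh = l⁻¹ * L u := ⟨_, rfl⟩
  have hhG : hh ∈ G := by rw [hhd]; exact G.mul_mem (G.inv_mem hlG) (h.memL _)
  have hhe : hh e = e := by rw [hhd, Perm.mul_apply, h.Le, Perm.inv_eq_iff_eq, hu]
  have hhb : hh b = b := by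
    have h1 : hh = (L (t b))⁻¹ * L b * L u := by rw [hLtb, hhd]; group
    rw [h1]
    simp only [Perm.mul_apply]
    rw [h0.flex', hbu, inv_apply']
  have hha' : hh a' = a' := by
    have h1 : hh = (L a)⁻¹ * L a' * L u := by rw [hhd, f11]; group
    rw [h1]
    simp only [Perm.mul_apply]
    rw [h0.flex', hau, inv_apply']
  have hhR : Commute hh (Rt L J b) := h0.comR hhG hhe hhb
  have hhmu : Commute hh mu := by
    rw [hmu]
    exact hhR.mul_right (show Commute hh (Rt L J (J b)) from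
      h0.comR hhG hhe (h0.fixJ hhG hhe hhb))
  have hha : hh a = a := by
    have h1 := congrArg (fun f : Perm Q => f a') hhmu.eq
    simp only [Perm.mul_apply] at h1
    rw [hmua, hha', hmua] at h1
    exact h1
  have hht : Commute hh t := by
    rw [ht]; exact htw hh (h0.comL hhG hhe hha) hhR
  have hhLb : Commute hh (L b) := h0.comL hhG hhe hhb
  have hhu : hh u = u := by
    have h1 := congrArg (fun f : Perm Q => f u) hhLb.eq
    have h2 := congrArg (fun f : Perm Q => f b) hht.eq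
    simp only [Perm.mul_apply] at h1 h2
    rw [hbu, h2, hhb, ← hbu] at h1
    exact ((L b).injective h1).symm
  have hhLu : Commute hh (L u) := h0.comL hhG hhe hhu
  have hlu : l = L u * hh⁻¹ := by rw [hhd]; group
  -- `t` fixes `u`
  have htu : t u = u := by
    have h1 : (t1 * t) e = e := by
      rw [Perm.mul_apply, hte, ht1]
      simp only [Perm.mul_apply]
      rw [hTe, hte, Perm.inv_eq_iff_eq, hTe]
    have hze : z e = u := by
      have h2 : z = l * t := by rw [hl]; group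
      rw [h2, Perm.mul_apply, hte, hu]
    rw [f8, Perm.mul_apply, hze, hy] at h1
    simp only [Perm.mul_apply] at h1
    have h2 : z (J u) = e := by
      apply J.injective
      rw [h1, h.Je]
    have h3 : z = L u * hh⁻¹ * t := by rw [← hlu, hl]; group
    rw [h3] at h2
    simp only [Perm.mul_apply] at h2
    have h4 : hh⁻¹ (t (J u)) = J u := by
      apply (L u).injective
      rw [h2, h.LJ]
    rw [Perm.inv_eq_iff_eq, h0.fixJ hhG hhe hhu] at h4
    have h5 := congrArg (fun f : Perm Q => f u) htJ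
    simp only [Perm.mul_apply] at h5
    rw [h4] at h5
    exact (J.injective h5).symm
  have htLu : Commute t (L u) := h0.comL htG hte htu
  have htl : Commute t l := by
    rw [hlu]; exact htLu.mul_right hht.symm.inv_right
  have htJc : Commute t J := htJ
  have htz : Commute t z := by
    have h2 : z = l * t := by rw [hl]; group
    rw [h2]; exact htl.mul_right (Commute.refl t)
  have hty : Commute t y := by
    rw [hy]; exact (htJc.mul_right htz).mul_right htJc
  have hr : J * l * J = y * t⁻¹ := by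
    rw [hl, hy]
    calc J * (z * t⁻¹) * J = J * z * (t⁻¹ * J) := by group
      _ = J * z * (J * t⁻¹) := by rw [htJc.inv_left.eq]
      _ = _ := by group
  have hzy : Commute z y := by
    change z * y = y * z
    rw [← f9, f8]
  have hlr : Commute l (y * t⁻¹) := by
    rw [hl]
    exact (hzy.mul_right htz.symm.inv_right).mul_left
      ((hty.inv_left).mul_right (Commute.refl t).inv_left.inv_right)
  refine ⟨l, t1, u, hh, hlG, ?_, ?_, hhG, hhe, hhLu.eq, hlu, ?_, ?_, ?_, ?_⟩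
  · rw [← ht]; exact hLtb
  · rw [← ht]; exact hbu
  · rw [← ht]; exact htl.eq
  · rw [hr]; exact hlr.eq
  · rw [← ht, ← hT]; exact ht1
  · rw [hr, ← ht, hl]
    calc z * t⁻¹ * (y * t⁻¹) = z * (t⁻¹ * y) * t⁻¹ := by group
      _ = z * y * t⁻¹ * t⁻¹ := by rw [hty.inv_left.eq]; group
      _ = t1 * t⁻¹ := by rw [← f9]; group

/-- `l` commutes with its images under the reflections -/
theorem l_com (h : AL G L J e) {t l : Perm Q} (htG : t ∈ G) (hte : t e = e) {b : Q} (hlG : l ∈ G)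
    (hLtb : L (t b) = L b * l) (htl : t * l = l * t)
    (hlr : l * (J * l * J) = (J * l * J) * l) (x : Q) :
    Commute l (D L J x * l * D L J x) := by
  have h0 := h.al0
  have hJJ := h.JJ1
  obtain ⟨r, hr⟩ : ∃ r, r = J * l * J := ⟨_, rfl⟩
  rw [← hr] at hlr
  have hlr' : Commute l r := hlr
  have hJl : J * l⁻¹ = r⁻¹ * J := by
    rw [hr, mul_inv_rev, mul_inv_rev, h.Jinv]
    calc J * l⁻¹ = J * l⁻¹ * (J * J) := by rw [hJJ, mul_one]
      _ = _ := by group
  have hL2 : L (t (t b)) = L b * l * l := by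
    rw [← h.equi t htG hte (t b), hLtb]
    calc t * (L b * l) * t⁻¹ = (t * L b * t⁻¹) * (t * l) * t⁻¹ := by group
      _ = L (t b) * (l * t) * t⁻¹ := by rw [h.equi t htG hte, htl]
      _ = L b * l * l := by rw [hLtb]; group
  obtain ⟨P, hP⟩ : ∃ P, P = l * r⁻¹ := ⟨_, rfl⟩
  have hD1 : D L J (t b) = L b * P * (L b)⁻¹ * D L J b := by
    unfold D
    rw [hLtb, hP]
    calc L b * l * J * (L b * l)⁻¹ = L b * l * (J * l⁻¹) * (L b)⁻¹ := by group
      _ = L b * (l * r⁻¹) * (L b)⁻¹ * (L b * J * (L b)⁻¹) := by rw [hJl]; group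
  have hD2 : D L J (t (t b)) = L b * (P * P) * (L b)⁻¹ * D L J b := by
    have hPP : P * P = l * l * r⁻¹ * r⁻¹ := by
      rw [hP]
      calc l * r⁻¹ * (l * r⁻¹) = l * (r⁻¹ * l) * r⁻¹ := by group
        _ = l * l * r⁻¹ * r⁻¹ := by rw [← hlr'.inv_right.eq]; group
    unfold D
    rw [hL2, hPP]
    calc L b * l * l * J * (L b * l * l)⁻¹ = L b * l * l * (J * l⁻¹) * l⁻¹ * (L b)⁻¹ := by group
      _ = L b * l * l * (r⁻¹ * J) * l⁻¹ * (L b)⁻¹ := by rw [hJl]
      _ = L b * l * l * r⁻¹ * (J * l⁻¹) * (L b)⁻¹ := by group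
      _ = L b * l * l * r⁻¹ * (r⁻¹ * J) * (L b)⁻¹ := by rw [hJl]
      _ = _ := by group
  have hDc : ∀ g ∈ G, ∀ p, D L J (g p) = g * D L J p * g⁻¹ := fun g hg p => (h.D_conj hg p).symm
  obtain ⟨W, hW⟩ : ∃ W, W = Rt L J x * L b * P * (L b)⁻¹ * (Rt L J x)⁻¹ := ⟨_, rfl⟩
  have hbx : D L J (L b x) = Rt L J x * D L J b * (Rt L J x)⁻¹ := by
    rw [← h0.Rt_app, hDc _ (h0.memR x)]
  have hbx2 : D L J (L b x) = L b * D L J x * (L b)⁻¹ := hDc _ (h.memL b) x
  have g1 : L b * (l * D L J x * l⁻¹ * D L J x) * (L b)⁻¹ = W := by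
    have h1 : D L J (L (t b) x) = W * D L J (L b x) := by
      rw [← h0.Rt_app, hDc _ (h0.memR x), hD1, hbx, hW]; group
    rw [hLtb, Perm.mul_apply, hDc _ (h.memL b), hDc _ hlG] at h1
    have h2 : (D L J (L b x))⁻¹ = L b * D L J x * (L b)⁻¹ := by
      rw [inv_eq_of_mul_eq_one_left (h.D_sq _), hbx2]
    calc L b * (l * D L J x * l⁻¹ * D L J x) * (L b)⁻¹ =
        L b * (l * D L J x * l⁻¹) * (L b)⁻¹ * (L b * D L J x * (L b)⁻¹) := by group
      _ = (W * D L J (L b x)) * (D L J (L b x))⁻¹ := by rw [h1, h2]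
      _ = W := by group
  have g2 : L b * (l * l * D L J x * l⁻¹ * l⁻¹ * D L J x) * (L b)⁻¹ = W * W := by
    have h1 : D L J (L (t (t b)) x) = W * W * D L J (L b x) := by
      rw [← h0.Rt_app, hDc _ (h0.memR x), hD2, hbx, hW]; group
    rw [hL2, Perm.mul_apply, Perm.mul_apply, hDc _ (h.memL b), hDc _ hlG, hDc _ hlG] at h1
    have h2 : (D L J (L b x))⁻¹ = L b * D L J x * (L b)⁻¹ := by
      rw [inv_eq_of_mul_eq_one_left (h.D_sq _), hbx2]
    calc L b * (l * l * D L J x * l⁻¹ * l⁻¹ * D L J x) * (L b)⁻¹ =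
        L b * (l * (l * D L J x * l⁻¹) * l⁻¹) * (L b)⁻¹ * (L b * D L J x * (L b)⁻¹) := by group
      _ = (W * W * D L J (L b x)) * (D L J (L b x))⁻¹ := by rw [h1, h2]
      _ = W * W := by group
  have hDD := h.D_sq x
  obtain ⟨F, hF⟩ : ∃ F, F = D L J x := ⟨_, rfl⟩
  rw [← hF] at g1 g2 hDD ⊢
  obtain ⟨m, hm⟩ : ∃ m, m = F * l⁻¹ * F := ⟨_, rfl⟩
  have g3 : l * l * (m * m) = l * m * (l * m) := by
    have h1 : m * m = F * l⁻¹ * l⁻¹ * F := by
      rw [hm]
      calc F * l⁻¹ * F * (F * l⁻¹ * F) = F * l⁻¹ * (F * F) * l⁻¹ * F := by group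
        _ = _ := by rw [hDD, mul_one]
    have h2 : L b * (l * l * (m * m)) * (L b)⁻¹ = L b * (l * m * (l * m)) * (L b)⁻¹ := by
      calc L b * (l * l * (m * m)) * (L b)⁻¹ = L b * (l * l * F * l⁻¹ * l⁻¹ * F) * (L b)⁻¹ := by
            rw [h1]; group
        _ = W * W := g2
        _ = (L b * (l * F * l⁻¹ * F) * (L b)⁻¹) * (L b * (l * F * l⁻¹ * F) * (L b)⁻¹) := by
            rw [g1]
        _ = _ := by rw [hm]; group
    exact mul_left_cancel (mul_right_cancel h2)
  have g4 : Commute l m := by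
    change l * m = m * l
    calc l * m = l⁻¹ * (l * l * (m * m)) * m⁻¹ := by group
      _ = l⁻¹ * (l * m * (l * m)) * m⁻¹ := by rw [g3]
      _ = m * l := by group
  have g5 : F * l * F = m⁻¹ := by
    rw [hm, mul_inv_rev, mul_inv_rev, inv_inv, inv_eq_of_mul_eq_one_left hDD]; group
  rw [g5]
  exact g4.inv_right

/-- K7 -/
theorem K7 [Finite Q] (h : AL G L J e) (hna : ¬ Assoc L) (hfix : ∀ x, J x = x → x = e)
    (a b : Q) : Th L J a b b = b := by
  have h0 := h.al0
  have hJJ := h.JJ1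
  obtain ⟨l, t1, u, hh, hlG, hLtb, hbu, hhG, hhe, hhLu, hlu, htl, hlr, ht1, htau⟩ :=
    h.exists_l a b
  have htG := h0.Th_mem a b
  have hte := h0.Th_e a b
  have heta : ∀ q, Commute (l * (J * l * J)) (D L J q * (l * (J * l * J)) * D L J q) := by
    intro q
    apply h.eta_com a b q
    rw [htau, ht1]
  obtain ⟨t, ht⟩ : ∃ t, t = Th L J a b := ⟨_, rfl⟩
  rw [← ht] at hLtb hbu htl htG hte ⊢
  have hl1 := h.l_com htG hte hlG hLtb htl hlr
  obtain ⟨r, hr⟩ : ∃ r, r = J * l * J := ⟨_, rfl⟩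
  have hr1 : ∀ x, Commute r (D L J x * r * D L J x) := by
    intro x
    have h1 := hl1 (J x)
    have h2 : D L J x * r * D L J x = J * (D L J (J x) * l * D L J (J x)) * J := by
      have h3 := h.JDJ (J x)
      rw [h.JJ] at h3
      rw [← h3, hr]
      calc J * D L J (J x) * J * (J * l * J) * (J * D L J (J x) * J) =
          J * D L J (J x) * (J * J) * l * (J * J) * D L J (J x) * J := by group
        _ = _ := by rw [hJJ]; group
    rw [h2, hr]
    change J * l * J * (J * (D L J (J x) * l * D L J (J x)) * J) =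
      J * (D L J (J x) * l * D L J (J x)) * J * (J * l * J)
    calc J * l * J * (J * (D L J (J x) * l * D L J (J x)) * J) =
        J * l * (J * J) * (D L J (J x) * l * D L J (J x)) * J := by group
      _ = J * (l * (D L J (J x) * l * D L J (J x))) * J := by rw [hJJ]; group
      _ = J * ((D L J (J x) * l * D L J (J x)) * 1 * l) * J := by rw [h1.eq]; group
      _ = J * ((D L J (J x) * l * D L J (J x)) * (J * J) * l) * J := by rw [hJJ]
      _ = _ := by group
  rw [← hr] at hlr heta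
  have hlr' : Commute l r := hlr
  obtain ⟨P, hP⟩ : ∃ P, P = l * r⁻¹ := ⟨_, rfl⟩
  have hrG : r ∈ G := by rw [hr]; exact h.JG _ hlG
  have hPG : P ∈ G := by rw [hP]; exact G.mul_mem hlG (G.inv_mem hrG)
  have hcom : ∀ q, P * (D L J q * P * D L J q) = (D L J q * P * D L J q) * P := by
    intro q
    have hDD := h.D_sq q
    have hprod : ∀ v w : Perm Q, D L J q * (v * w) * D L J q =
        (D L J q * v * D L J q) * (D L J q * w * D L J q) := by
      intro v w
      calc D L J q * (v * w) * D L J q = D L J q * v * 1 * w * D L J q := by group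
        _ = D L J q * v * (D L J q * D L J q) * w * D L J q := by rw [hDD]
        _ = _ := by group
    have hinv : ∀ v : Perm Q, D L J q * v⁻¹ * D L J q = (D L J q * v * D L J q)⁻¹ := by
      intro v
      rw [mul_inv_rev, mul_inv_rev, inv_eq_of_mul_eq_one_left hDD]; group
    have h1 := trick (x := D L J q * l * D L J q) (y := D L J q * r * D L J q) hlr' ?_ (hl1 q)
      (hr1 q) ?_
    · rw [← hinv, ← hprod, ← hP] at h1
      exact h1.eq
    · change D L J q * l * D L J q * (D L J q * r * D L J q) =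
        D L J q * r * D L J q * (D L J q * l * D L J q)
      rw [← hprod, ← hprod, hlr'.eq]
    · rw [← hprod]; exact heta q
  have hPu : P = D L J u * J := by
    have h1 : Commute hh (L u) := hhLu
    have h2 : hh * J = J * hh := h.comJ _ hhG hhe
    have h3 : hh⁻¹ * J = J * hh⁻¹ := (show Commute hh J from h2).inv_left.eq
    have h4 : r = J * L u * J * hh⁻¹ := by
      rw [hr, hlu]
      calc J * (L u * hh⁻¹) * J = J * L u * (hh⁻¹ * J) := by group
        _ = J * L u * J * hh⁻¹ := by rw [h3]; group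
    rw [hP, h4, hlu]
    unfold D
    calc L u * hh⁻¹ * (J * L u * J * hh⁻¹)⁻¹ = L u * J⁻¹ * (L u)⁻¹ * J⁻¹ := by group
      _ = _ := by rw [h.Jinv]
  obtain ⟨n, hn, hnd⟩ := h.odd_DD hfix u e
  rw [h.D_e, ← hPu] at hnd
  have hP1 : P = 1 := by
    refine h.close hna hPG hn hnd (r := e) ?_ hcom
    rw [h.D_e, hP]
    have h5 : J * r * J = l := by
      rw [hr]
      calc J * (J * l * J) * J = (J * J) * l * (J * J) := by group
        _ = l := by rw [hJJ]; group
    have h6 : J * r⁻¹ * J = l⁻¹ := by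
      rw [← h5, mul_inv_rev, mul_inv_rev, h.Jinv]; group
    calc J * (l * r⁻¹) * J = J * l * 1 * r⁻¹ * J := by group
      _ = J * l * (J * J) * r⁻¹ * J := by rw [hJJ]
      _ = (J * l * J) * (J * r⁻¹ * J) := by group
      _ = r * l⁻¹ := by rw [← hr, h6]
      _ = (l * r⁻¹)⁻¹ := by group
  have hue : u = e := by
    apply h.D_inj
    rw [h.D_e]
    calc D L J u = D L J u * (J * J) := by rw [hJJ, mul_one]
      _ = P * J := by rw [hPu]; group
      _ = J := by rw [hP1, one_mul]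
  rw [hue, h.Le] at hbu
  exact hbu.symm

end AL

end ALoop
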