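import Pool.Agent.H2.O1.End

set_option autoImplicit false

/-!
# A finite simple automorphic loop in which only `e` is its own inverse is a group
-/

namespace ALoop

open Equiv

variable {Q : Type*} {G : Subgroup (Perm Q)} {L : Q → Perm Q} {J : Perm Q} {e : Q}

namespace AL

/-- case (O): `J x = x` only for `x = e` (odd order) -/
theorem assoc_of_odd [Finite Q] (h : AL G L J e) (hfix : ∀ x, J x = x → x = e) : Assoc L := by
  by_contra hna
  have h0 := h.al0
  by_cases hc : ∀ q x, L q x = L x q
  · apply hna
    apply h.comm_assoc
    intro q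
    rw [h0.JLJ]
    ext x
    rw [h0.Rt_app, hc]
  · push Not at hc
    obtain ⟨q, x, hqx⟩ := hc
    exact hna (h.assoc_of_K7 hfix (h.K7 hna hfix) hqx)

end AL

end ALoop
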